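import Pool.Agent.Helper75.CR.St

/-!
# Project CR, module D: same first index, different signs
-/

set_option autoImplicit false

namespace Pool.Agent.Helper57.CR

open Pool.Agent.Helper75.CR Helper1.IM

theorem one {B : Type} (S : Sgn B) {θ ρ : Pg S} (hθ : Bs S θ) (hρ : LeP θ ρ) (i : ℕ) (a : ℕ × B) (s : Wo B) :
    Er ρ [(i, a.2)] (sB S (fun _ => [(i, S.o)]) (a :: s)) := by
  rw [sB_cons, S.lit]
  refine hθ.extρ hρ (by simp) ?_
  rw [cn_sB]
  intro j hj
  rw [Finset.mem_biUnion] at hj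
  obtain ⟨k, _, hk⟩ := hj
  simpa using hk

theorem hD : StD := by
  intro B S θ ρ hθ hρ a b s t h1 hab h i c d
  have hne : a.2 ≠ b.2 := fun h2 => hab (Prod.ext h1 h2)
  have hs : Er ρ (sB S (fun _ => [(i, S.o)]) (a :: s)) (sB S (fun _ => [(i, S.o)]) (b :: t)) :=
    h.sub (fun _ => [(i, S.o)]) (fun _ => by simp)
  have key : Er ρ [(i, a.2)] [(i, b.2)] :=
    ((one S hθ hρ i a s).trans hs).trans (one S hθ hρ i b t).symm
  rcases S.two a.2 b.2 c d hne with h2 | ⟨h2, h3⟩ | ⟨h2, h3⟩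
  · rw [h2]
    exact Er.rfl' ρ (by simp)
  · rw [h2, h3]
    exact key
  · rw [h2, h3]
    exact key.symm

end Pool.Agent.Helper57.CR
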